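import Pool.Agent.Lib.MP_c8b0a1_an.Four.Inc

/-! The `(n + 3)`-rd moment of the autocorrelation of a weight on an admissible sphere. -/

namespace Pool.Agent.Lib.MP_c8b0a1_an.Sum

open Finset Module

theorem sum_update {ι V : Type} [Fintype ι] [DecidableEq ι] [Fintype V] (i : ι)
    (f : (ι → V) → ℝ) :
    ∑ u : ι → V, ∑ x : V, f (Function.update u i x) = Fintype.card V * ∑ u, f u := by
  have hi : Function.Involutive fun p : (ι → V) × V => (Function.update p.1 i p.2, p.1 i) :=
    fun p => by simp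
  rw [← Fintype.sum_prod_type' (fun u x => f (Function.update u i x)),
    Fintype.sum_equiv hi.toPerm (fun p => f (Function.update p.1 i p.2)) (fun p => f p.1)
      fun p => rfl, Fintype.sum_prod_type]
  simp [mul_sum]

theorem sum_prod_pi {ι V : Type} [Fintype ι] [DecidableEq ι] [Fintype V] (β : ι → V → ℝ) :
    ∑ u : ι → V, ∏ k, β k (u k) = ∏ k, ∑ x, β k x := by
  rw [prod_univ_sum, Fintype.piFinset_univ]

theorem amgm {x y c : ℝ} (hc : 0 ≤ c) : x * y * c ≤ x ^ 2 * c + y ^ 2 * c := by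
  nlinarith [mul_nonneg hc (sq_nonneg (x - y)), mul_nonneg hc (sq_nonneg x),
    mul_nonneg hc (sq_nonneg y)]

variable {F : Type} [Field F] [Fintype F] [DecidableEq F]
variable {V : Type} [AddCommGroup V] [Module F V] [Fintype V] [DecidableEq V]

/-- The point `u i` is an affine combination of the other points. -/
def Rel (F : Type) [Field F] {V : Type} [AddCommGroup V] [Module F V] {m : ℕ} (i : Fin m)
    (u : Fin m → V) : Prop :=
  ∃ c : Fin m → F, ∑ k, c k = 0 ∧ ∑ k, c k • u k = 0 ∧ c i ≠ 0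

omit [Fintype F] [DecidableEq F] [Fintype V] [DecidableEq V] in
theorem exists_rel {n : ℕ} {u : Fin (n + 3) → V}
    (h : ¬ LinearIndependent F fun i : Fin (n + 2) => u i.succ - u 0) :
    ∃ i i', i ≠ i' ∧ Rel F i u ∧ Rel F i' u := by
  obtain ⟨g, h1, i, h2⟩ := Fintype.not_linearIndependent_iff.1 h
  have e1 : ∑ k, (Fin.cons (-∑ l, g l) g : Fin (n + 3) → F) k = 0 := by
    simp [Fin.sum_univ_succ (n := n + 2)]
  have e2 : ∑ k, (Fin.cons (-∑ l, g l) g : Fin (n + 3) → F) k • u k = 0 := by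
    rw [Fin.sum_univ_succ (n := n + 2), ← h1]
    simp only [Fin.cons_zero, Fin.cons_succ, smul_sub, sum_sub_distrib, ← sum_smul, neg_smul]
    abel
  by_cases h3 : ∃ i', i.succ ≠ i' ∧ (Fin.cons (-∑ l, g l) g : Fin (n + 3) → F) i' ≠ 0
  · obtain ⟨i', h3, h4⟩ := h3
    exact ⟨_, i', h3, ⟨_, e1, e2, by simpa using h2⟩, ⟨_, e1, e2, h4⟩⟩
  · push Not at h3
    rw [sum_eq_single i.succ (fun b _ hb => h3 b hb.symm) (by simp)] at e1
    exact absurd (by simpa using e1) h2

open Classical in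
theorem cnt_rel (hF : ringChar F ≠ 2) {ψ : AddChar F ℂ} {j : F} {B : V →ₗ[F] V →ₗ[F] F} {n : ℕ}
    (hG : Good ψ j B (n + 1)) {i i' : Fin (n + 3)} (hi : i ≠ i') (u : Fin (n + 3) → V)
    (hu : B (u i') (u i') = j) :
    #{x : V | B x x = j ∧ Rel F i (Function.update u i x)} ≤ 2 * Fintype.card F ^ n := by
  refine Four.flat hF hG hu
    (Submodule.span F (((univ.erase i).erase i').image (fun k => u k - u i') : Finset V)) ?_ _
    fun x hx => ⟨(mem_filter.1 hx).2.1, ?_⟩
  · refine (finrank_span_finset_le_card _).trans (card_image_le.trans ?_)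
    rw [card_erase_of_mem (by simp [hi.symm]), card_erase_of_mem (mem_univ _)]
    simp
  · obtain ⟨c, c1, c2, c3⟩ := (mem_filter.1 hx).2.2
    have e : ∑ k, c k • (Function.update u i x k - u i') = 0 := by
      simp only [smul_sub, sum_sub_distrib, ← sum_smul, c1, c2, zero_smul, sub_zero]
    rw [← add_sum_erase _ _ (mem_univ i), Function.update_self] at e
    rw [← Submodule.smul_mem_iff _ c3, eq_neg_of_add_eq_zero_left e]
    refine Submodule.neg_mem _ (Submodule.sum_mem _ fun k hk => Submodule.smul_mem _ _ ?_)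
    rw [Function.update_of_ne (ne_of_mem_erase hk)]
    rcases eq_or_ne k i' with rfl | h
    · simp
    · exact Submodule.subset_span (mem_coe.2 (mem_image.2 ⟨k, mem_erase.2 ⟨h, hk⟩, rfl⟩))

open Classical in
theorem cnt_ind (hF : ringChar F ≠ 2) {ψ : AddChar F ℂ} {j : F} {B : V →ₗ[F] V →ₗ[F] F} {n : ℕ}
    (hG : Good ψ j B (n + 1)) (hV : finrank F V = 2 * n + 3) (u : Fin (n + 3) → V) :
    #{h : V | (LinearIndependent F fun i : Fin (n + 2) => u i.succ - u 0) ∧
      (∀ i, B (u i) (u i) = j) ∧ ∀ i, B (u i - h) (u i - h) = j} ≤ 2 * Fintype.card F ^ n := by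
  by_cases h0 : (LinearIndependent F fun i : Fin (n + 2) => u i.succ - u 0) ∧
      ∀ i, B (u i) (u i) = j
  · obtain ⟨W, w1, w2⟩ := Four.perp hG hV h0.1
    rw [← card_image_of_injective _ (sub_right_injective (b := u 0))]
    refine Four.flat hF hG (h0.2 0) W w1 _ fun x hx => ?_
    obtain ⟨h, hh, rfl⟩ := mem_image.1 hx
    obtain ⟨-, a1, a2⟩ := (mem_filter.1 hh).2
    refine ⟨a2 0, w2 _ fun i => mul_left_cancel₀ (two_ne hF) ?_⟩
    have b1 := a1 0
    have b2 := a2 0
    have b3 := a1 i.succ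
    have b4 := a2 i.succ
    have b5 := hG.symm h (u 0)
    have b6 := hG.symm h (u i.succ)
    rw [sub_sub_cancel_left]
    simp only [map_sub, map_neg, LinearMap.sub_apply] at b2 b4 ⊢
    linear_combination b4 - b3 - b2 + b1 + b6 - b5
  · rw [filter_false_of_mem fun h _ hh => h0 ⟨hh.1, hh.2.1⟩]
    simp

end Pool.Agent.Lib.MP_c8b0a1_an.Sum
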