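import Pool.Agent.Lib.MP_c8b0a1_an.Sum.Mom
import Pool.Agent.Lib.MP_c8b0a1_an.Four.Main

/-! The restriction bound in terms of the iterated sumset of the support. -/

namespace Pool.Agent.Lib.MP_c8b0a1_an.Sum

open Finset Module

variable {F : Type} [Field F] [Fintype F] [DecidableEq F]
variable {V : Type} [AddCommGroup V] [Module F V] [Fintype V] [DecidableEq V]

omit [DecidableEq F] in
/-- The Fourier coefficients of the squared extension. -/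
theorem coef {ψ : AddChar F ℂ} {B : V →ₗ[F] V →ₗ[F] F} {N : ℝ} (hN : 0 ≤ N)
    (ho : ∀ x, ∑ ξ, ψ (B ξ x) = if x = 0 then (N : ℂ) else 0)
    (g : V → ℂ) (h : V) :
    ‖∑ x, ((‖∑ ξ, g ξ * ψ (B x ξ)‖ ^ 2 : ℝ) : ℂ) * ψ (B x h)‖ ≤
      N * ∑ η, ‖g η‖ * ‖g (η - h)‖ := by
  have e : ∀ x, ((‖∑ ξ, g ξ * ψ (B x ξ)‖ ^ 2 : ℝ) : ℂ) * ψ (B x h) =
      ∑ η, ∑ ξ, g ξ * (starRingEnd ℂ) (g η) * ψ (B x (ξ - η + h)) := fun x => by
    rw [normsq_eq, map_sum, sum_mul_sum, sum_comm, sum_mul]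
    refine sum_congr rfl fun η _ => ?_
    rw [sum_mul]
    refine sum_congr rfl fun ξ _ => ?_
    rw [map_add, map_sub, AddChar.map_add_eq_mul, ← psi_mul_conj, map_mul]
    ring
  simp_rw [e]
  rw [sum_comm, mul_sum]
  refine (norm_sum_le _ _).trans (sum_le_sum fun η _ => le_of_eq ?_)
  rw [sum_comm]
  simp_rw [← mul_sum, ho]
  rw [sum_eq_single (η - h) (fun b _ hb => by
    rw [if_neg fun e => hb (by rw [← sub_eq_zero, ← e]; abel), mul_zero]) (by simp),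
    if_pos (by abel)]
  simp only [norm_mul, RCLike.norm_conj, Complex.norm_real, Real.norm_of_nonneg hN]
  ring

/-- The iterated convolution is bounded by the moment of the Fourier coefficients. -/
theorem conv {ψ : AddChar F ℂ} {B : V →ₗ[F] V →ₗ[F] F} {N : ℝ}
    (hs : ∀ x y, B x y = B y x) (ho : ∀ x, ∑ ξ, ψ (B ξ x) = if x = 0 then (N : ℂ) else 0)
    {m : ℕ} (w : V → ℝ) (s : V) :
    N * ∑ u : Fin m → V with ∑ i, u i = s, ∏ i, w (u i) ≤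
      ∑ h, ‖∑ x, (w x : ℂ) * ψ (B x h)‖ ^ m := by
  have e : ((N * ∑ u : Fin m → V with ∑ i, u i = s, ∏ i, w (u i) : ℝ) : ℂ) =
      ∑ h, ψ (-(B s h)) * (∑ x, (w x : ℂ) * ψ (B x h)) ^ m := by
    have e1 : ∀ h, (∑ x, (w x : ℂ) * ψ (B x h)) ^ m =
        ∑ u : Fin m → V, ∏ i, (w (u i) : ℂ) * ψ (B (u i) h) := fun h => by
      rw [← Fintype.piFinset_univ, ← prod_univ_sum (fun _ : Fin m => (univ : Finset V))
        fun _ x => (w x : ℂ) * ψ (B x h)]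
      simp
    simp_rw [e1, mul_sum]
    rw [sum_comm, sum_filter, Complex.ofReal_sum]
    refine sum_congr rfl fun u _ => ?_
    have e2 : ∀ h, ψ (-(B s h)) * ∏ i, (w (u i) : ℂ) * ψ (B (u i) h) =
        (∏ i, (w (u i) : ℂ)) * ψ (B h (∑ i, u i - s)) := fun h => by
      rw [prod_mul_distrib, ← psi_sum, mul_left_comm, ← AddChar.map_add_eq_mul, map_sub, map_sum,
        hs h s, sum_congr rfl fun i _ => hs h (u i), neg_add_eq_sub]
    simp_rw [e2]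
    rw [← mul_sum, ho]
    simp only [sub_eq_zero]
    split_ifs <;> simp [mul_comm]
  refine (le_abs_self _).trans ?_
  rw [← Real.norm_eq_abs, ← Complex.norm_real, e]
  refine (norm_sum_le _ _).trans (sum_le_sum fun h _ => le_of_eq ?_)
  rw [norm_mul, norm_psi, one_mul, norm_pow]

theorem core (hF : ringChar F ≠ 2) {ψ : AddChar F ℂ} {j : F} {B : V →ₗ[F] V →ₗ[F] F} {n : ℕ}
    (hG : Good ψ j B (n + 1)) (hV : finrank F V = 2 * n + 3) (Z : Finset V) (f : V → ℂ)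
    (hf : ∀ x, x ∉ Z → f x = 0) :
    (1 / (#{ξ | B ξ ξ = j} : ℝ) * ∑ ξ with B ξ ξ = j, ‖∑ x, f x * ψ (-(B x ξ))‖ ^ 2) ^ (n + 3) ≤
      (2 + 2 * (n + 3) ^ 2) * 2 * 2 ^ (n + 3) *
        #((Fintype.piFinset fun _ : Fin (n + 3) => Z).image fun u => ∑ i, u i) *
        (∑ x, ‖f x‖ ^ 2) ^ (n + 3) := by
  have hq : (0 : ℝ) < Fintype.card F := card_pos'
  set q : ℝ := (Fintype.card F : ℝ) with hq'
  set T := (Fintype.piFinset fun _ : Fin (n + 3) => Z).image fun u => ∑ i, u i with hT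
  set K : ℝ := 2 + 2 * (n + 3) ^ 2 with hK
  set P : ℝ := ∑ x, ‖f x‖ ^ 2 with hP
  have hP0 : 0 ≤ P := sum_nonneg fun _ _ => sq_nonneg _
  let g : V → ℂ := fun ξ => if B ξ ξ = j then ∑ x, f x * ψ (-(B x ξ)) else 0
  let w : V → ℝ := fun x => ‖∑ ξ, g ξ * ψ (B x ξ)‖ ^ 2
  have w0 : ∀ x, 0 ≤ w x := fun _ => sq_nonneg _
  have eA : ∑ ξ with B ξ ξ = j, ‖∑ x, f x * ψ (-(B x ξ))‖ ^ 2 = ∑ ξ, ‖g ξ‖ ^ 2 := by
    rw [sum_filter]
    refine sum_congr rfl fun ξ _ => ?_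
    simp only [g]
    split_ifs <;> simp
  rw [eA]
  set A : ℝ := ∑ ξ, ‖g ξ‖ ^ 2 with hA
  have hA0 : 0 ≤ A := sum_nonneg fun _ _ => sq_nonneg _
  have h1 : A ^ 2 ≤ P * ∑ x ∈ Z, w x := by
    have e : (A : ℂ) = ∑ x ∈ Z, f x * (starRingEnd ℂ) (∑ ξ, g ξ * ψ (B x ξ)) := by
      rw [sum_subset (subset_univ Z) fun x _ hx => by rw [hf x hx, zero_mul], hA,
        Complex.ofReal_sum]
      simp_rw [map_sum, mul_sum]
      rw [sum_comm]
      refine sum_congr rfl fun ξ _ => ?_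
      rw [normsq_eq]
      simp_rw [map_mul, conj_psi, mul_comm ((starRingEnd ℂ) (g ξ)), ← mul_assoc]
      rw [← sum_mul]
      by_cases hξ : B ξ ξ = j
      · simp only [g, if_pos hξ]
      · simp only [g, if_neg hξ, map_zero, mul_zero]
    have e2 : A ≤ ∑ x ∈ Z, ‖f x‖ * ‖∑ ξ, g ξ * ψ (B x ξ)‖ := by
      rw [← Real.norm_of_nonneg hA0, ← Complex.norm_real, e]
      refine (norm_sum_le _ _).trans (sum_le_sum fun x _ => le_of_eq ?_)
      rw [norm_mul, RCLike.norm_conj]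
    refine (pow_le_pow_left₀ hA0 e2 2).trans ((sum_mul_sq_le_sq_mul_sq _ _ _).trans ?_)
    exact mul_le_mul_of_nonneg_right (sum_le_sum_of_subset_of_nonneg (subset_univ Z)
      fun _ _ _ => sq_nonneg _) (sum_nonneg fun _ _ => sq_nonneg _)
  have h2 := mom hF hG hV (fun ξ => ‖g ξ‖) (fun _ => norm_nonneg _) fun x hx => by
    by_contra hc
    exact hx (by simp only [g, if_neg hc, norm_zero])
  have h3 : ∀ s, q ^ (2 * (n + 1) + 1) * ∑ u : Fin (n + 3) → V with ∑ i, u i = s, ∏ i, w (u i) ≤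
      (q ^ (2 * (n + 1) + 1)) ^ (n + 3) * (K * (2 * q ^ n * A ^ (n + 3))) := fun s => by
    refine (conv hG.symm hG.orth w s).trans ((sum_le_sum fun h _ => pow_le_pow_left₀
      (norm_nonneg _) (coef (by positivity) hG.orth g h) _).trans ?_)
    simp_rw [mul_pow]
    rw [← mul_sum]
    exact mul_le_mul_of_nonneg_left h2 (by positivity)
  have h4 : ∀ s, ∑ u : Fin (n + 3) → V with ∑ i, u i = s, ∏ i, w (u i) ≤
      (q ^ (2 * (n + 1))) ^ (n + 3) * (K * 2 * A ^ (n + 3)) := fun s =>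
    le_of_mul_le_mul_left ((h3 s).trans_eq (by ring)) (pow_pos hq (2 * (n + 1) + 1))
  have h5 : (∑ x ∈ Z, w x) ^ (n + 3) ≤
      #T * ((q ^ (2 * (n + 1))) ^ (n + 3) * (K * 2 * A ^ (n + 3))) := by
    have e : (∑ x ∈ Z, w x) ^ (n + 3) =
        ∑ u ∈ Fintype.piFinset fun _ : Fin (n + 3) => Z, ∏ i, w (u i) := by
      rw [← prod_univ_sum (fun _ : Fin (n + 3) => Z) fun _ x => w x]
      simp
    have e1 : ∀ u ∈ Fintype.piFinset fun _ : Fin (n + 3) => Z, ∑ i, u i ∈ T :=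
      fun u hu => mem_image_of_mem _ hu
    rw [e, ← sum_fiberwise_of_maps_to e1, ← nsmul_eq_mul]
    refine sum_le_card_nsmul _ _ _ fun s _ => le_trans ?_ (h4 s)
    exact sum_le_sum_of_subset_of_nonneg (filter_subset_filter _ (subset_univ _))
      fun _ _ _ => prod_nonneg fun _ _ => w0 _
  have h6 := Four.card_sph hG
  rw [← hq'] at h6
  have hs0 : (0 : ℝ) < #{ξ | B ξ ξ = j} := by
    have : 0 < q ^ (2 * (n + 1)) := by positivity
    linarith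
  have hK0 : 0 ≤ K := by positivity
  rcases hA0.eq_or_lt with h0 | h0
  · rw [← h0, mul_zero, zero_pow (by omega)]
    positivity
  have h7 : A ^ (n + 3) ≤ P ^ (n + 3) * (#T * ((q ^ (2 * (n + 1))) ^ (n + 3) * (K * 2))) := by
    refine le_of_mul_le_mul_right ?_ (pow_pos h0 (n + 3))
    calc A ^ (n + 3) * A ^ (n + 3) = (A ^ 2) ^ (n + 3) := by ring
      _ ≤ (P * ∑ x ∈ Z, w x) ^ (n + 3) := by gcongr
      _ = P ^ (n + 3) * (∑ x ∈ Z, w x) ^ (n + 3) := mul_pow _ _ _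
      _ ≤ P ^ (n + 3) * (#T * ((q ^ (2 * (n + 1))) ^ (n + 3) * (K * 2 * A ^ (n + 3)))) := by
          gcongr
      _ = _ := by ring
  rw [one_div, inv_mul_eq_div, div_pow, div_le_iff₀ (by positivity)]
  calc A ^ (n + 3) ≤ _ := h7
    _ ≤ P ^ (n + 3) * (#T * ((2 * (#{ξ | B ξ ξ = j} : ℝ)) ^ (n + 3) * (K * 2))) := by gcongr
    _ = _ := by ring

theorem main (d : ℕ) (hd : 3 ≤ d) :
    ∃ C : ℝ, ∀ (F : Type) [Field F] [Fintype F] [DecidableEq F],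
      ringChar F ≠ 2 → ∀ ψ : AddChar F ℂ, ψ ≠ 1 → ∀ j : F, j ≠ 0 →
      ((d % 4 = 1 ∧ quadraticChar F j = -1) ∨ (d % 4 = 3 ∧ quadraticChar F (-j) = -1)) →
      ∀ (Z : Finset (Fin d → F)) (f : (Fin d → F) → ℂ), (∀ x, x ∉ Z → f x = 0) →
        ((1 / ((Finset.univ.filter (fun ξ : Fin d → F => ∑ i, ξ i ^ 2 = j)).card : ℝ)) *
          ∑ ξ ∈ Finset.univ.filter (fun ξ : Fin d → F => ∑ i, ξ i ^ 2 = j),
            ‖∑ x : Fin d → F, f x * ψ (-(∑ i, x i * ξ i))‖ ^ 2) ^ ((d + 3) / 2)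
        ≤ C * (((Fintype.piFinset fun _ : Fin ((d + 3) / 2) => Z).image
            fun u => ∑ i, u i).card : ℝ) * (∑ x : Fin d → F, ‖f x‖ ^ 2) ^ ((d + 3) / 2) := by
  obtain ⟨n, hn⟩ : ∃ n, d / 2 = n + 1 := ⟨d / 2 - 1, by omega⟩
  refine ⟨(2 + 2 * (n + 3) ^ 2) * 2 * 2 ^ (n + 3), fun F _ _ _ hF ψ hψ j hj h Z f hf => ?_⟩
  obtain ⟨h1, h2⟩ := admissible hF h
  rw [hn] at h1 h2
  subst h1
  have e : (2 * (n + 1) + 1 + 3) / 2 = n + 3 := by omega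
  rw [e]
  have := core hF (good_dot hF hψ hj _ h2) (by simp; omega) Z f hf
  simpa only [dotB_apply, sq] using this

end Pool.Agent.Lib.MP_c8b0a1_an.Sum
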