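import Pool.Agent.Lib.MP_c8b0a1_an.Sum.Comb

/-! The moment bound. -/

namespace Pool.Agent.Lib.MP_c8b0a1_an.Sum

open Finset Module

theorem sum_shift {V : Type} [AddCommGroup V] [Fintype V] (f : V → ℝ) (h : V) :
    ∑ x, f (x - h) = ∑ x, f x :=
  Fintype.sum_equiv (Equiv.subRight h) _ _ fun _ => rfl

theorem corr_le {V : Type} [AddCommGroup V] [Fintype V] (a : V → ℝ) (h : V) :
    ∑ x, a x * a (x - h) ≤ ∑ x, a x ^ 2 := by
  have h1 : ∑ x, a x * a (x - h) ≤ ∑ x, (a x ^ 2 + a (x - h) ^ 2) / 2 :=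
    sum_le_sum fun x _ => by nlinarith [sq_nonneg (a x - a (x - h))]
  rw [← sum_div, sum_add_distrib, sum_shift (fun x => a x ^ 2) h] at h1
  linarith

theorem corr_sq {V : Type} [AddCommGroup V] [Fintype V] (a : V → ℝ) :
    ∑ h, ∑ x, (a x * a (x - h)) ^ 2 = (∑ x, a x ^ 2) ^ 2 := by
  rw [sum_comm, sq (∑ x, a x ^ 2), sum_mul]
  refine sum_congr rfl fun x _ => ?_
  rw [mul_sum]
  exact Fintype.sum_equiv (Equiv.subLeft x) _ _ fun h => by simp [mul_pow]

/-- Tuples in which the point `u i` has at most `Q` choices. -/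
theorem dep {V : Type} [AddCommGroup V] [Fintype V] {n : ℕ} {i i' : Fin (n + 3)} (hi : i ≠ i')
    (a : V → ℝ) (ha : ∀ x, 0 ≤ a x) (p : (Fin (n + 3) → V) → Prop) [DecidablePred p] {Q : ℝ}
    (hQ : 0 ≤ Q) (hp : ∀ u, (#{x | p (Function.update u i x)} : ℝ) ≤ Q) :
    ∑ h, ∑ u : Fin (n + 3) → V, (if p u then (a (u i') * a (u i' - h)) ^ 2 *
      ∏ k ∈ (univ.erase i).erase i', a (u k) * a (u k - h) else 0) ≤
      Q * (∑ x, a x ^ 2) ^ (n + 3) := by
  have hN : (0 : ℝ) < Fintype.card V := by exact_mod_cast Fintype.card_pos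
  have hA : 0 ≤ ∑ x, a x ^ 2 := sum_nonneg fun _ _ => sq_nonneg _
  have hm : i' ∈ univ.erase i := mem_erase.2 ⟨hi.symm, mem_univ _⟩
  have split : ∀ γ : Fin (n + 3) → ℝ,
      ∏ k, γ k = γ i * (γ i' * ∏ k ∈ (univ.erase i).erase i', γ k) := fun γ => by
    rw [mul_prod_erase _ γ hm, mul_prod_erase _ γ (mem_univ i)]
  have key : ∀ h, ∑ u : Fin (n + 3) → V, (if p u then (a (u i') * a (u i' - h)) ^ 2 *
      ∏ k ∈ (univ.erase i).erase i', a (u k) * a (u k - h) else 0) ≤
      Q * ((∑ x, (a x * a (x - h)) ^ 2) * (∑ x, a x ^ 2) ^ (n + 1)) := fun h => by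
    refine le_of_mul_le_mul_left ?_ hN
    rw [← sum_update i]
    let β : Fin (n + 3) → V → ℝ := fun k x =>
      if k = i then 1 else if k = i' then (a x * a (x - h)) ^ 2 else a x * a (x - h)
    have b1 : ∀ x, β i x = 1 := fun x => if_pos rfl
    have b2 : ∀ x, β i' x = (a x * a (x - h)) ^ 2 := fun x => (if_neg hi.symm).trans (if_pos rfl)
    have b3 : ∀ k ∈ (univ.erase i).erase i', ∀ x, β k x = a x * a (x - h) := fun k hk x =>
      (if_neg (ne_of_mem_erase (mem_of_mem_erase hk))).trans (if_neg (ne_of_mem_erase hk))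
    have e1 : ∀ u : Fin (n + 3) → V, ∑ x, (if p (Function.update u i x) then
        (a (Function.update u i x i') * a (Function.update u i x i' - h)) ^ 2 *
        ∏ k ∈ (univ.erase i).erase i', a (Function.update u i x k) *
          a (Function.update u i x k - h) else 0) ≤ Q * ∏ k, β k (u k) := fun u => by
      have e2 : ∀ x, (a (Function.update u i x i') * a (Function.update u i x i' - h)) ^ 2 *
          ∏ k ∈ (univ.erase i).erase i', a (Function.update u i x k) *
            a (Function.update u i x k - h) = ∏ k, β k (u k) := fun x => by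
        rw [split, b1, b2, one_mul, Function.update_of_ne hi.symm]
        refine congrArg _ (prod_congr rfl fun k hk => ?_)
        rw [b3 k hk, Function.update_of_ne (ne_of_mem_erase (mem_of_mem_erase hk))]
      simp_rw [e2]
      rw [← sum_filter, sum_const, nsmul_eq_mul]
      refine mul_le_mul_of_nonneg_right (hp u) ?_
      rw [← e2 0]
      exact mul_nonneg (sq_nonneg _) (prod_nonneg fun _ _ => mul_nonneg (ha _) (ha _))
    refine (sum_le_sum fun u _ => e1 u).trans ?_
    rw [← mul_sum, sum_prod_pi, split, mul_left_comm]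
    simp only [b1, b2, sum_const, card_univ, nsmul_eq_mul, mul_one]
    refine mul_le_mul_of_nonneg_left (mul_le_mul_of_nonneg_left (mul_le_mul_of_nonneg_left ?_
      (sum_nonneg fun _ _ => sq_nonneg _)) hQ) hN.le
    have e3 : n + 1 = #((univ.erase i).erase i') := by
      rw [card_erase_of_mem hm, card_erase_of_mem (mem_univ _)]
      simp
    rw [e3, ← prod_const]
    refine prod_le_prod (fun k hk => ?_) fun k hk => ?_
    · simp only [b3 k hk]
      exact sum_nonneg fun _ _ => mul_nonneg (ha _) (ha _)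
    · simp only [b3 k hk]
      exact corr_le a h
  refine (sum_le_sum fun h _ => key h).trans_eq ?_
  rw [← mul_sum, ← sum_mul, corr_sq]
  ring

/-- Tuples that have at most `Q` translates. -/
theorem ind {V : Type} [AddCommGroup V] [Fintype V] {m : ℕ} (a : V → ℝ)
    (p : (Fin m → V) → V → Prop) [∀ u h, Decidable (p u h)] {Q : ℝ}
    (hp : ∀ u, (#{h | p u h} : ℝ) ≤ Q) :
    ∑ h, ∑ u : Fin m → V, (if p u h then (∏ k, a (u k)) ^ 2 else 0) ≤ Q * (∑ x, a x ^ 2) ^ m := by
  have e : (∑ x, a x ^ 2) ^ m = ∑ u : Fin m → V, (∏ k, a (u k)) ^ 2 := by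
    simp_rw [← prod_pow]
    rw [sum_prod_pi fun _ x => a x ^ 2]
    simp
  rw [sum_comm, e, mul_sum]
  refine sum_le_sum fun u _ => ?_
  rw [← sum_filter, sum_const, nsmul_eq_mul]
  exact mul_le_mul_of_nonneg_right (hp u) (sq_nonneg _)

variable {F : Type} [Field F] [Fintype F] [DecidableEq F]
variable {V : Type} [AddCommGroup V] [Module F V] [Fintype V] [DecidableEq V]

theorem mom (hF : ringChar F ≠ 2) {ψ : AddChar F ℂ} {j : F} {B : V →ₗ[F] V →ₗ[F] F} {n : ℕ}
    (hG : Good ψ j B (n + 1)) (hV : finrank F V = 2 * n + 3) (a : V → ℝ) (ha : ∀ x, 0 ≤ a x)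
    (hS : ∀ x, a x ≠ 0 → B x x = j) :
    ∑ h, (∑ x, a x * a (x - h)) ^ (n + 3) ≤
      (2 + 2 * (n + 3) ^ 2) * (2 * (Fintype.card F : ℝ) ^ n * (∑ x, a x ^ 2) ^ (n + 3)) := by
  classical
  set Q : ℝ := 2 * (Fintype.card F : ℝ) ^ n with hQ
  have hQ0 : 0 ≤ Q := by positivity
  let N : (Fin (n + 3) → V) → V → Prop := fun u h =>
    (LinearIndependent F fun i : Fin (n + 2) => u i.succ - u 0) ∧
      (∀ i, B (u i) (u i) = j) ∧ ∀ i, B (u i - h) (u i - h) = j
  let G : Fin (n + 3) → Fin (n + 3) → V → (Fin (n + 3) → V) → ℝ := fun i i' h u =>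
    if i ≠ i' ∧ B (u i') (u i') = j ∧ B (u i) (u i) = j ∧ Rel F i u then
      (a (u i') * a (u i' - h)) ^ 2 * ∏ k ∈ (univ.erase i).erase i', a (u k) * a (u k - h) else 0
  have G0 : ∀ i i' h u, 0 ≤ G i i' h u := fun i i' h u => by
    simp only [G]
    split_ifs
    · exact mul_nonneg (sq_nonneg _) (prod_nonneg fun _ _ => mul_nonneg (ha _) (ha _))
    · exact le_rfl
  have G1 : ∀ i i', ∑ h, ∑ u, G i i' h u ≤ Q * (∑ x, a x ^ 2) ^ (n + 3) := fun i i' => by
    rcases eq_or_ne i i' with e | e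
    · simp only [G, e, ne_eq, not_true, false_and, if_false, sum_const_zero]
      positivity
    refine dep e a ha _ hQ0 fun u => ?_
    by_cases hu : B (u i') (u i') = j
    · refine le_trans (Nat.cast_le.2 (card_le_card fun x hx => ?_))
        ((Nat.cast_le.2 (cnt_rel hF hG e u hu)).trans_eq (by rw [hQ]; push_cast; rfl))
      have := (mem_filter.1 hx).2.2.2
      rw [Function.update_self] at this
      exact mem_filter.2 ⟨mem_univ _, this⟩
    · rw [filter_false_of_mem fun x _ hx => hu (by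
        simpa only [Function.update_of_ne e.symm] using hx.2.1)]
      simpa using hQ0
  have N1 : ∑ h, ∑ u, (if N u h then (∏ k, a (u k)) ^ 2 else 0) ≤
      Q * (∑ x, a x ^ 2) ^ (n + 3) := ind a N fun u =>
    (Nat.cast_le.2 (by convert cnt_ind hF hG hV u)).trans_eq
      (show ((2 * Fintype.card F ^ n : ℕ) : ℝ) = Q by rw [hQ]; push_cast; rfl)
  have N2 : ∑ h, ∑ u, (if N u h then (∏ k, a (u k - h)) ^ 2 else 0) =
      ∑ h, ∑ u, (if N u h then (∏ k, a (u k)) ^ 2 else 0) := by
    refine Fintype.sum_equiv (Equiv.neg V) _ _ fun h => ?_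
    refine Fintype.sum_equiv (Equiv.subRight fun _ => h) _ _ fun u => ?_
    refine if_congr ?_ rfl rfl
    simp only [N, Equiv.subRight_apply, Equiv.neg_apply, Pi.sub_apply, sub_sub_sub_cancel_right,
      sub_neg_eq_add, sub_add_cancel]
    tauto
  have pt : ∀ h (u : Fin (n + 3) → V), ∏ k, a (u k) * a (u k - h) ≤
      ((if N u h then (∏ k, a (u k)) ^ 2 else 0) + if N u h then (∏ k, a (u k - h)) ^ 2 else 0) +
        (∑ i, ∑ i', G i i' h u + ∑ i, ∑ i', G i i' h u) := fun h u => by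
    have s0 : 0 ≤ ∑ i, ∑ i', G i i' h u := sum_nonneg fun _ _ => sum_nonneg fun _ _ => G0 ..
    have s1 : ∀ i i', G i i' h u ≤ ∑ i, ∑ i', G i i' h u := fun i i' =>
      (single_le_sum (f := fun i' => G i i' h u) (fun _ _ => G0 ..) (mem_univ i')).trans
        (single_le_sum (f := fun i => ∑ i', G i i' h u)
          (fun _ _ => sum_nonneg fun _ _ => G0 ..) (mem_univ i))
    have s2 : 0 ≤ (if N u h then (∏ k, a (u k)) ^ 2 else 0) +
        if N u h then (∏ k, a (u k - h)) ^ 2 else 0 := by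
      split_ifs <;> positivity
    rcases eq_or_ne (∏ k, a (u k) * a (u k - h)) 0 with e | e
    · rw [e]
      positivity
    have t1 : ∀ k, B (u k) (u k) = j := fun k =>
      hS _ (left_ne_zero_of_mul (prod_ne_zero_iff.1 e k (mem_univ k)))
    have t2 : ∀ k, B (u k - h) (u k - h) = j := fun k =>
      hS _ (right_ne_zero_of_mul (prod_ne_zero_iff.1 e k (mem_univ k)))
    by_cases hl : LinearIndependent F fun i : Fin (n + 2) => u i.succ - u 0
    · have hN : N u h := ⟨hl, t1, t2⟩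
      rw [if_pos hN, if_pos hN, prod_mul_distrib]
      have := amgm (x := ∏ k, a (u k)) (y := ∏ k, a (u k - h)) zero_le_one
      linarith
    · obtain ⟨i, i', e1, e2, e3⟩ := exists_rel hl
      have k1 := s1 i i'
      have k2 := s1 i' i
      simp only [G] at k1 k2
      rw [if_pos ⟨e1, t1 _, t1 _, e2⟩] at k1
      rw [if_pos ⟨e1.symm, t1 _, t1 _, e3⟩, erase_right_comm] at k2
      rw [← mul_prod_erase _ _ (mem_univ i),
        ← mul_prod_erase _ _ (mem_erase.2 ⟨e1.symm, mem_univ i'⟩), ← mul_assoc]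
      have := amgm (x := a (u i) * a (u i - h)) (y := a (u i') * a (u i' - h))
        (prod_nonneg (s := (univ.erase i).erase i') fun k _ => mul_nonneg (ha (u k)) (ha (u k - h)))
      simp only [G]
      linarith
  have e : ∀ h, (∑ x, a x * a (x - h)) ^ (n + 3) =
      ∑ u : Fin (n + 3) → V, ∏ k, a (u k) * a (u k - h) := fun h => by
    rw [sum_prod_pi fun _ x => a x * a (x - h)]
    simp
  have G2 : ∑ h, ∑ u, ∑ i, ∑ i', G i i' h u ≤
      (n + 3) ^ 2 * (Q * (∑ x, a x ^ 2) ^ (n + 3)) := by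
    have e1 : ∑ h, ∑ u, ∑ i, ∑ i', G i i' h u = ∑ i, ∑ i', ∑ h, ∑ u, G i i' h u := by
      simp_rw [← Fintype.sum_prod_type' (fun i i' => G i i' _ _),
        ← Fintype.sum_prod_type' (fun h u => G _ _ h u)]
      rw [← Fintype.sum_prod_type' (fun h u => ∑ x : Fin (n + 3) × Fin (n + 3), G x.1 x.2 h u),
        sum_comm, Fintype.sum_prod_type]
    rw [e1]
    refine (sum_le_sum fun i _ => sum_le_sum fun i' _ => G1 i i').trans_eq ?_
    simp only [sum_const, card_univ, Fintype.card_fin, nsmul_eq_mul]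
    push_cast
    ring
  simp_rw [e]
  refine (sum_le_sum fun h _ => sum_le_sum fun u _ => pt h u).trans ?_
  simp only [sum_add_distrib]
  rw [N2]
  linarith

end Pool.Agent.Lib.MP_c8b0a1_an.Sum
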